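import Pool.Agent.K1H47.RA.Stm
import Pool.Agent.K1H99.RC.Strict

set_option autoImplicit false

/-! `S_PAIR`: two parametrizations of the same orbit have proportional velocities (for helper47,
project RA). -/

namespace Pool.Agent.K1H4.RA

open Topology Filter Pool.Agent.K1H47.RC Pool.Agent.K1H47.RA

lemma hasDeriv {L : Type} [NontriviallyNormedField L] [CompleteSpace L] [IsUltrametricDist L]
    {ι : Type} [Fintype ι] {r : ℝ} (hr0 : 0 ≤ r) (hr1 : r < 1) {C C' : ι → ℕ → L → L}
    (hF : Fam r C C') (a : L) (i : ι) :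
    HasDerivAt (fun t : L => ev C 0 (a * t) i) (a * evt C 0 0 i) 0 := by
  obtain ⟨D, hD, hS⟩ := Pool.Agent.K1H99.RC.t_STRICT L ι r hr0 hr1 C C' hF 0 0 (by simp) (by simp)
  have h1 : HasDerivAt (fun t : L => ((0 : L), a * t)) ((0 : L), a) 0 := by
    have h2 : HasDerivAt (fun t : L => a * t) a 0 := by
      simpa using (hasDerivAt_id (0 : L)).const_mul a
    exact (hasDerivAt_const (0 : L) (0 : L)).prodMk h2
  have h3 : HasFDerivAt (fun q : L × L => ev C q.1 q.2) D ((fun t : L => ((0 : L), a * t)) 0) := by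
    simpa using hS.hasFDerivAt
  have h4 := h3.comp_hasDerivAt (0 : L) h1
  rw [hD] at h4
  have h5 := hasDerivAt_pi.1 h4 i
  simpa using h5

theorem t_PAIR : S_PAIR := by
  intro L _ _ _ _ p _ hp ι _ C C' E E' hC hE k l hk hl hprop μ hμ h0 hne
  have hp0 : (p : L) ≠ 0 := by
    exact_mod_cast (Fact.out : p.Prime).ne_zero
  have hk0 : (k : L) ≠ 0 := by exact_mod_cast hk.ne'
  have hl0 : (l : L) ≠ 0 := by exact_mod_cast hl.ne'
  have hr0 : (0 : ℝ) ≤ ‖(p : L)‖ := norm_nonneg _
  -- the sequence `p ^ n`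
  have hseq : Tendsto (fun n : ℕ => (p : L) ^ n) atTop (𝓝[≠] 0) := by
    rw [tendsto_nhdsWithin_iff]
    exact ⟨tendsto_pow_atTop_nhds_zero_of_norm_lt_one hp,
      Eventually.of_forall fun n => pow_ne_zero n hp0⟩
  have key : ∀ i j : ι, (l : L) * evt C 0 0 i * ev E 0 0 j + ev C 0 0 i * (k * evt E 0 0 j) -
      (l * evt C 0 0 j * ev E 0 0 i + ev C 0 0 j * (k * evt E 0 0 i)) = 0 := by
    intro i j
    have d : HasDerivAt (fun t : L => ev C 0 (l * t) i * ev E 0 (k * t) j -
        ev C 0 (l * t) j * ev E 0 (k * t) i)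
        ((l : L) * evt C 0 0 i * ev E 0 0 j + ev C 0 0 i * (k * evt E 0 0 j) -
          (l * evt C 0 0 j * ev E 0 0 i + ev C 0 0 j * (k * evt E 0 0 i))) 0 := by
      have h1 := ((hasDeriv hr0 hp hC (l : L) i).mul (hasDeriv hr0 hp hE (k : L) j)).sub
        ((hasDeriv hr0 hp hC (l : L) j).mul (hasDeriv hr0 hp hE (k : L) i))
      simp only [mul_zero] at h1
      exact h1
    have hs := (hasDerivAt_iff_tendsto_slope.1 d).comp hseq
    have hz : ((slope fun t : L => ev C 0 (l * t) i * ev E 0 (k * t) j -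
        ev C 0 (l * t) j * ev E 0 (k * t) i) 0) ∘ (fun n : ℕ => (p : L) ^ n) = fun _ => 0 := by
      funext n
      have e1 := hprop (p ^ n) i j
      have e0 := hprop 0 i j
      push_cast at e1 e0
      simp only [Function.comp_apply, slope_def_field]
      rw [e1]
      simp only [mul_zero] at e0 ⊢
      rw [e0]
      simp
    rw [hz] at hs
    exact tendsto_nhds_unique hs tendsto_const_nhds
  obtain ⟨j, hj⟩ := Function.ne_iff.1 hne
  have hj : ev C 0 0 j ≠ 0 := hj
  refine ⟨l * μ / k, (k * evt E 0 0 j - l * μ * evt C 0 0 j) / (k * ev C 0 0 j),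
    div_ne_zero (mul_ne_zero hl0 hμ) hk0, fun i => ?_⟩
  have h1 := key i j
  rw [h0 i, h0 j] at h1
  field_simp
  linear_combination -h1

end Pool.Agent.K1H4.RA
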